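import Pool.Agent.H81.Willerton

namespace Pool.Agent.Results.MP_6e410e_gt.WillertonBound

open Pool.Agent.H81

/-- Willerton's bound: if `v` has the properties that characterise the invariant `v₃` (an
invariant of finite type of degree at most three, changing sign under mirror image and equal to
one on the right-handed trefoil), then `|v K| ≤ ⌊n(n² - 1)/24⌋` for every knot `K` that has a
diagram with `n` crossings. -/
theorem result (v : (Circ → ℂ × ℝ) → ℝ) (hv : IsV3 v) (n : ℕ) (K : Circ → ℂ × ℝ)
    (hK : HasDiagram K n) : |v K| ≤ (⌊((n:ℝ) * ((n:ℝ)^2 - 1)) / 24⌋ : ℝ) :=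
  willerton hv hK

end Pool.Agent.Results.MP_6e410e_gt.WillertonBound
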